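import Pool.Agent.H.MP_ed80cb_an.B

set_option autoImplicit false
open Filter Topology MeasureTheory Set Metric
open scoped ContDiff

namespace Pool.Agent.Results.MP_ed80cb_an.No

def Test (u : ℂ → ℝ) : Prop :=
  ContDiff ℝ ∞ u ∧ HasCompactSupport u ∧ tsupport u ⊆ ball 0 1

noncomputable def Q (V u : ℂ → ℝ) : ℝ :=
  (∫ z in ball 0 1, ‖fderiv ℝ u z‖ ^ 2) - ∫ z in ball 0 1, V z * u z ^ 2

theorem result : ∃ V : ℂ → ℝ, ContinuousOn V (ball 0 1) ∧
    (∀ K : Set ℂ, IsCompact K → K ⊆ ball 0 1 →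
      Tendsto (fun r : ℝ => ⨆ x : ℂ, ∫⁻ y in K ∩ ball x r,
        ENNReal.ofReal (Real.log (1 / ‖x - y‖) * |V y|)) (𝓝[>] 0) (𝓝 0)) ∧
    (∀ u, Test u → IntegrableOn (fun z => V z * u z ^ 2) (ball 0 1)) ∧
    (∃ E : Set ℂ, IsOpen E ∧ E.Nonempty ∧ IsCompact (closure E) ∧ closure E ⊆ ball 0 1 ∧
      ∃ δ : ℝ, 0 < δ ∧ ∀ u, Test u → δ * (∫ z in E, u z) ^ 2 ≤ Q V u) ∧
    ∀ C : ℝ, ∃ u, Test u ∧ Q V u ≤ 1 ∧
      C < ∫ z in ball 0 1, Real.exp (4 * Real.pi * u z ^ 2) := by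
  open Pool.Agent.H.MP_ed80cb_an in
  have hV := pot_c isOpen_ball (XX_cd 1) (XX_cd Complex.I)
  refine ⟨pot (XX 1) (XX Complex.I), hV, fun K hK hs => kato hK (hV.mono hs),
    fun u hu => (i_w isOpen_ball hu.1.continuous hu.2.1 hu.2.2 hV).integrableOn,
    ⟨ball 0 (1 / 2), isOpen_ball, nonempty_ball.2 (by norm_num), ?_, ?_, 1, one_pos, ?_⟩, ?_⟩
  · exact (isCompact_closedBall 0 (1 / 2)).of_isClosed_subset isClosed_closure
      closure_ball_subset_closedBall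
  · exact closure_ball_subset_closedBall.trans (closedBall_subset_ball (by norm_num))
  · intro u hu
    rw [Q, rep isOpen_ball (hu.1.of_le (by exact_mod_cast le_top)) hu.2.1 hu.2.2 (XX_cd 1)
      (XX_cd Complex.I)]
    exact (coer hu.1.continuous hu.2.1).trans
      (le_add_of_nonneg_left (integral_nonneg fun z => by positivity))
  · intro C
    obtain ⟨M, hM0, hM⟩ := bb_M
    set c : ℝ := (9 * (M + 1))⁻¹ with hc
    have hc0 : 0 < c := by positivity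
    set s : ℝ := 1 + (|C| + 1) * (12000 / c ^ 10) with hs
    have hs1 : 1 ≤ s := le_add_of_nonneg_right (by positivity)
    have ht : 0 < s⁻¹ := by positivity
    have ht1 : s⁻¹ ≤ 1 := inv_le_one_of_one_le₀ hs1
    refine ⟨uu c s⁻¹, ⟨uu_cd ht ht1, uu_cs ht, (uu_supp ht).trans (sub_ball ht ht1)⟩,
      (Q_le hM ht ht1).trans ?_, lt_of_lt_of_le ?_ (E_ge hc0 ht ht1)⟩
    · have : 81 * c ^ 2 * (M + 1) ^ 2 = 1 := by rw [hc]; field_simp; norm_num
      have h2 : 81 * c ^ 2 * (M ^ 2 + 1) ≤ 81 * c ^ 2 * (M + 1) ^ 2 := by gcongr; nlinarith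
      linarith
    · have : c ^ 10 / 12000 * s = c ^ 10 / 12000 + (|C| + 1) := by rw [hs]; field_simp
      rw [inv_inv, this]
      have := le_abs_self C
      have : 0 < c ^ 10 / 12000 := by positivity
      linarith

end Pool.Agent.Results.MP_ed80cb_an.No
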